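import Pool.Agent.Helper51.LT.St
import Pool.Agent.Helper60.Rel.GFun
import Pool.Agent.Helper71.TU.X5aux

/-!
# Project LT (MP_d6acc2_an), module D1
-/

set_option autoImplicit false

namespace Pool.Agent.Helper68.LT

open Complex MeasureTheory Set Metric Filter Topology
open Pool.Agent.Helper51.LT

theorem hD1 : StD1 := by
  intro f z d hd hU
  obtain ⟨hf, hi⟩ := hU
  have hz : z ∈ ball z d := mem_ball_self hd
  have hne : deriv f z ≠ 0 := Pool.TU.X5.deriv_ne_zero_of_injOn isOpen_ball hf hi hz
  have hd0 : (d : ℂ) ≠ 0 := by exact_mod_cast hd.ne'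
  obtain ⟨c, hc⟩ : ∃ c : ℂ, c = ((d : ℂ) * deriv f z)⁻¹ := ⟨_, rfl⟩
  have hc0 : c ≠ 0 := by rw [hc]; exact inv_ne_zero (mul_ne_zero hd0 hne)
  have hin : ∀ x ∈ ball (0 : ℂ) 1, z + d * x ∈ ball z d := by
    intro x hx
    rw [mem_ball_zero_iff] at hx
    rw [mem_ball_iff_norm, add_sub_cancel_left, norm_mul, Complex.norm_real, Real.norm_eq_abs,
      abs_of_pos hd]
    nlinarith
  have hder : ∀ x ∈ ball (0 : ℂ) 1,
      HasDerivAt (fun x : ℂ => c * (f (z + d * x) - f z)) (c * (deriv f (z + d * x) * d)) x := by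
    intro x hx
    have h1 : HasDerivAt f (deriv f (z + d * x)) (z + d * x) :=
      (hf.differentiableAt (isOpen_ball.mem_nhds (hin x hx))).hasDerivAt
    have h2 : HasDerivAt (fun x : ℂ => z + d * x) d x := by
      have := ((hasDerivAt_id x).const_mul (d : ℂ)).const_add z
      simpa using this
    have h3 : HasDerivAt (fun x : ℂ => f (z + d * x)) (deriv f (z + d * x) * d) x :=
      HasDerivAt.comp x h1 h2
    exact (h3.sub_const (f z)).const_mul c
  have h0m : (0 : ℂ) ∈ ball (0 : ℂ) 1 := mem_ball_self one_pos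
  have key := Pool.Agent.Helper60.Rel.bieb (fun x : ℂ => c * (f (z + d * x) - f z))
    (fun x hx => (hder x hx).differentiableAt.differentiableWithinAt)
    (by
      intro x hx y hy hxy
      have h1 : f (z + d * x) - f z = f (z + d * y) - f z := mul_left_cancel₀ hc0 hxy
      have h2 := hi (hin x hx) (hin y hy) (sub_left_inj.1 h1)
      exact mul_left_cancel₀ hd0 (add_left_cancel h2))
    (by simp)
    (by
      rw [(hder 0 h0m).deriv, mul_zero, add_zero, hc]
      field_simp)
  have h2 : deriv (deriv fun x : ℂ => c * (f (z + d * x) - f z)) 0 =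
      c * (deriv (deriv f) z * d * d) := by
    have hev : deriv (fun x : ℂ => c * (f (z + d * x) - f z)) =ᶠ[𝓝 0]
        fun x => c * (deriv f (z + d * x) * d) := by
      filter_upwards [isOpen_ball.mem_nhds h0m] with x hx using (hder x hx).deriv
    rw [hev.deriv_eq]
    have hdf : DifferentiableAt ℂ (deriv f) (z + d * 0) := by
      rw [mul_zero, add_zero]
      exact (hf.deriv isOpen_ball).differentiableAt (isOpen_ball.mem_nhds hz)
    have h3 : HasDerivAt (fun x : ℂ => z + d * x) d 0 := by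
      have := ((hasDerivAt_id (0 : ℂ)).const_mul (d : ℂ)).const_add z
      simpa using this
    have h4 : HasDerivAt (fun x : ℂ => deriv f (z + d * x)) (deriv (deriv f) (z + d * 0) * d) 0 :=
      HasDerivAt.comp (h₂ := deriv f) (h := fun x : ℂ => z + d * x) (0 : ℂ) hdf.hasDerivAt h3
    have h5 := ((h4.mul_const (d : ℂ)).const_mul c).deriv
    rw [mul_zero, add_zero] at h5
    exact h5
  rw [h2, hc, norm_mul, norm_mul, norm_mul, norm_inv, norm_mul, Complex.norm_real,
    Real.norm_eq_abs, abs_of_pos hd] at key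
  have hp : 0 < ‖deriv f z‖ := norm_pos_iff.2 hne
  have h6 : (d * ‖deriv f z‖)⁻¹ * (‖deriv (deriv f) z‖ * d * d) =
      d * ‖deriv (deriv f) z‖ / ‖deriv f z‖ := by
    field_simp
  rw [h6, div_le_iff₀ hp] at key
  exact key

end Pool.Agent.Helper68.LT
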